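import Pool.Agent.H28.GUG.Targets
import Pool.Agent.H39.GUF.BR

/-!
# Row BRG of the board guc_modules: the Gowers norms on `ZMod q` and the cubes of integers
-/

set_option autoImplicit false

open Finset

namespace Pool.Agent.H33.GUG

open Pool.Agent.H28.GUG Pool.Agent.H31.GUF Pool.Agent.H31.DP
open Pool.Agent.H28.GU (Gw)
open Pool.Agent.H39.GUF (uu uu_of_mem uu_of_notMem cast_inj Gw_uu)

theorem cut_eq {q : ℕ} [NeZero q] {M : ℕ} (g : ℤ → ℝ) (hq : 2 * M < q) :
    cut q M g = uu (Finset.Icc (1 : ℤ) M) g := by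
  funext x
  have hx : (((x.val : ℕ) : ℤ) : ZMod q) = x := by
    rw [Int.cast_natCast, ZMod.natCast_zmod_val]
  unfold cut
  split_ifs with h1
  · rw [← uu_of_mem hq (A := Finset.Icc (1 : ℤ) M) (fun p hp => Finset.mem_Icc.1 hp) g
      (p := ((x.val : ℕ) : ℤ)) (Finset.mem_Icc.2 ⟨by exact_mod_cast h1.1, by exact_mod_cast h1.2⟩),
      hx]
  · rw [uu_of_notMem]
    intro p hp hpx
    apply h1
    rw [Finset.mem_Icc] at hp
    have h2 := ZMod.val_lt x
    have h3 : p = ((x.val : ℕ) : ℤ) := by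
      refine cast_inj (hpx.trans hx.symm) ?_ ?_
      · omega
      · omega
    omega

theorem pf_BRG : G_BR := by
  intro k M q _ g hq
  rw [cut_eq g hq, Gw_uu hq k _ _ (fun p hp => Finset.mem_Icc.1 hp)]

end Pool.Agent.H33.GUG
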