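import Pool.Agent.H28.GUG.Targets
import Pool.Agent.H28.GU.TargetsC
import Pool.Agent.H39.GUF.BR

/-!
# Row GVG of the board guc_modules: the generalised von Neumann inequality for linear forms
-/

set_option autoImplicit false

open Finset

namespace Pool.Agent.H33.GUG

open Pool.Agent.H28.GUG Pool.Agent.H31.GUF Pool.Agent.H31.DP
open Pool.Agent.H28.GU (Gw T_BC)
open Pool.Agent.H39.GUF (Gw_succ)

section

variable {q : ℕ} [Fact q.Prime]

/-- the square of a sum -/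
theorem gvg_sq (f : ZMod q → ℂ) : ((‖∑ n, f n‖ ^ 2 : ℝ) : ℂ) =
    ∑ h : ZMod q, ∑ n : ZMod q, f n * (starRingEnd ℂ) (f (n + h)) := by
  have h1 : ((‖∑ n, f n‖ ^ 2 : ℝ) : ℂ) = (∑ n, f n) * (starRingEnd ℂ) (∑ n, f n) := by
    rw [Complex.mul_conj, Complex.normSq_eq_norm_sq]
  rw [h1, map_sum, Finset.sum_mul, Finset.sum_comm]
  refine Finset.sum_congr rfl fun n _ => ?_
  rw [Finset.mul_sum]
  exact (Equiv.sum_comp (Equiv.addLeft n) fun m => f n * (starRingEnd ℂ) (f m)).symm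

variable {R J : ℕ}

/-- the change of variables -/
theorem gvg_var (g : ZMod q → ℝ) (a₀ : ZMod q) (b₀ : Fin R → ZMod q) (a : Fin J → ZMod q)
    (b : Fin J → Fin R → ZMod q) (F : Fin J → ZMod q → ℂ) (ha : a₀ ≠ 0) (i : Fin J → Fin R)
    (hi : ∀ j, a₀ * b j (i j) - a j * b₀ (i j) ≠ 0) :
    (q : ℂ) ^ J * ∑ t : Fin R → ZMod q, ∑ n : ZMod q,
      ((g (a₀ * n + ∑ k, b₀ k * t k) : ℝ) : ℂ) * ∏ j, F j (a j * n + ∑ k, b j k * t k) =
    ∑ t : Fin R → ZMod q, ∑ m : ZMod q, ∑ s : Fin J → ZMod q,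
      ((g (m + ∑ l, s l) : ℝ) : ℂ) * ∏ j, F j (a j * (a₀⁻¹ * (m - ∑ k, b₀ k * t k)) +
        ∑ k, b j k * t k + ∑ l, (a j * b l (i l) - b j (i l) * a l) *
          ((a₀ * b l (i l) - a l * b₀ (i l))⁻¹ * s l)) := by
  classical
  have hsum : ∀ x : Fin J → ZMod q, ∑ t : Fin R → ZMod q, ∑ n : ZMod q,
      ((g (a₀ * n + ∑ k, b₀ k * t k) : ℝ) : ℂ) * ∏ j, F j (a j * n + ∑ k, b j k * t k) =
      ∑ t : Fin R → ZMod q, ∑ n : ZMod q,
        ((g ((a₀ * n + ∑ k, b₀ k * t k) + ∑ l, (a₀ * b l (i l) - a l * b₀ (i l)) * x l) : ℝ) : ℂ) *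
          ∏ j, F j ((a j * n + ∑ k, b j k * t k) +
            ∑ l, (a j * b l (i l) - b j (i l) * a l) * x l) := by
    intro x
    set τ : Fin R → ZMod q := fun k => ∑ l, if i l = k then -(a l * x l) else 0 with hτ
    set υ : ZMod q := ∑ l, b l (i l) * x l with hυ
    have hdot : ∀ (B : Fin R → ZMod q) (t : Fin R → ZMod q), ∑ k, B k * (t + τ) k =
        ∑ k, B k * t k + ∑ l, -(B (i l) * a l * x l) := by
      intro B t
      simp only [Pi.add_apply, mul_add, Finset.sum_add_distrib]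
      congr 1
      simp only [hτ, Finset.mul_sum]
      rw [Finset.sum_comm]
      refine Finset.sum_congr rfl fun l _ => ?_
      rw [Finset.sum_eq_single_of_mem (i l) (Finset.mem_univ _)
        (fun k _ hk => by rw [if_neg (Ne.symm hk), mul_zero]), if_pos rfl]
      ring
    rw [← Equiv.sum_comp (Equiv.addRight τ) (fun t : Fin R → ZMod q => ∑ n : ZMod q,
      ((g (a₀ * n + ∑ k, b₀ k * t k) : ℝ) : ℂ) * ∏ j, F j (a j * n + ∑ k, b j k * t k))]
    refine Finset.sum_congr rfl fun t _ => ?_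
    rw [← Equiv.sum_comp (Equiv.addRight υ) (fun n : ZMod q =>
      ((g (a₀ * n + ∑ k, b₀ k * (Equiv.addRight τ) t k) : ℝ) : ℂ) *
        ∏ j, F j (a j * n + ∑ k, b j k * (Equiv.addRight τ) t k))]
    refine Finset.sum_congr rfl fun n _ => ?_
    simp only [Equiv.coe_addRight]
    have h0 : a₀ * (n + υ) + ∑ k, b₀ k * (t + τ) k = (a₀ * n + ∑ k, b₀ k * t k) +
        ∑ l, (a₀ * b l (i l) - a l * b₀ (i l)) * x l := by
      rw [hdot, hυ, mul_add, Finset.mul_sum]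
      have : ∑ l, (a₀ * b l (i l) - a l * b₀ (i l)) * x l =
          ∑ l, a₀ * (b l (i l) * x l) + ∑ l, -(b₀ (i l) * a l * x l) := by
        rw [← Finset.sum_add_distrib]
        refine Finset.sum_congr rfl fun l _ => ?_
        ring
      rw [this]
      ring
    have h1 : ∀ j, a j * (n + υ) + ∑ k, b j k * (t + τ) k = (a j * n + ∑ k, b j k * t k) +
        ∑ l, (a j * b l (i l) - b j (i l) * a l) * x l := by
      intro j
      rw [hdot, hυ, mul_add, Finset.mul_sum]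
      have : ∑ l, (a j * b l (i l) - b j (i l) * a l) * x l =
          ∑ l, a j * (b l (i l) * x l) + ∑ l, -(b j (i l) * a l * x l) := by
        rw [← Finset.sum_add_distrib]
        refine Finset.sum_congr rfl fun l _ => ?_
        ring
      rw [this]
      ring
    rw [h0]
    simp only [h1]
  have hcard : (q : ℂ) ^ J * ∑ t : Fin R → ZMod q, ∑ n : ZMod q,
      ((g (a₀ * n + ∑ k, b₀ k * t k) : ℝ) : ℂ) * ∏ j, F j (a j * n + ∑ k, b j k * t k) =
      ∑ x : Fin J → ZMod q, ∑ t : Fin R → ZMod q, ∑ n : ZMod q,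
        ((g ((a₀ * n + ∑ k, b₀ k * t k) + ∑ l, (a₀ * b l (i l) - a l * b₀ (i l)) * x l) : ℝ) : ℂ) *
          ∏ j, F j ((a j * n + ∑ k, b j k * t k) +
            ∑ l, (a j * b l (i l) - b j (i l) * a l) * x l) := by
    rw [← Finset.sum_congr rfl fun x _ => hsum x, Finset.sum_const, Finset.card_univ,
      Fintype.card_fun, ZMod.card, Fintype.card_fin, nsmul_eq_mul]
    push_cast
    ring
  rw [hcard, Finset.sum_comm]
  refine Finset.sum_congr rfl fun t _ => ?_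
  -- the new variables
  let H : ZMod q → (Fin J → ZMod q) → ℂ := fun m s =>
    ((g (m + ∑ l, s l) : ℝ) : ℂ) * ∏ j, F j (a j * (a₀⁻¹ * (m - ∑ k, b₀ k * t k)) +
        ∑ k, b j k * t k + ∑ l, (a j * b l (i l) - b j (i l) * a l) *
          ((a₀ * b l (i l) - a l * b₀ (i l))⁻¹ * s l))
  show _ = ∑ m, ∑ s, H m s
  rw [Finset.sum_comm (f := H)]
  rw [← Equiv.sum_comp (Equiv.piCongrRight fun l : Fin J => Equiv.mulLeft₀ _ (hi l))
    (fun s : Fin J → ZMod q => ∑ m, H m s)]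
  refine Finset.sum_congr rfl fun x _ => ?_
  rw [← Equiv.sum_comp ((Equiv.mulLeft₀ a₀ ha).trans (Equiv.addRight (∑ k, b₀ k * t k)))
    (fun m => H m _)]
  refine Finset.sum_congr rfl fun n _ => ?_
  simp only [H, Equiv.piCongrRight_apply, Equiv.trans_apply, Equiv.mulLeft₀_apply,
    Equiv.coe_addRight, Pi.map_apply]
  have e1 : a₀⁻¹ * (a₀ * n + ∑ k, b₀ k * t k - ∑ k, b₀ k * t k) = n := by
    rw [add_sub_cancel_right, ← mul_assoc, inv_mul_cancel₀ ha, one_mul]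
  have e2 : ∀ l, (a₀ * b l (i l) - a l * b₀ (i l))⁻¹ *
      ((a₀ * b l (i l) - a l * b₀ (i l)) * x l) = x l := by
    intro l
    rw [← mul_assoc, inv_mul_cancel₀ (hi l), one_mul]
  simp only [e1, e2]

end

theorem pf_GVG (hBC : T_BC) : G_GV := by
  classical
  intro R J q _ g c a₀ b₀ a b F hJ hg hc hF ha hi
  choose i hi using hi
  have hi' : ∀ j, a₀ * b j (i j) - a j * b₀ (i j) ≠ 0 := fun j => sub_ne_zero.2 (hi j)
  have hq0 : (0 : ℝ) < q := by exact_mod_cast (Fact.out : q.Prime).pos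
  -- the inner sums
  set I : (Fin R → ZMod q) → ℂ := fun t => ∑ n : ZMod q,
    ((g (a₀ * n + ∑ k, b₀ k * t k) : ℝ) : ℂ) * ∏ j, F j (a j * n + ∑ k, b j k * t k) with hI
  set gh : ZMod q → ZMod q → ℝ := fun h y => g y * g (y + a₀ * h) with hgh
  set Fh : ZMod q → Fin J → ZMod q → ℂ := fun h j y =>
    F j y * (starRingEnd ℂ) (F j (y + a j * h)) with hFh
  have hFh1 : ∀ h j y, ‖Fh h j y‖ ≤ 1 := by
    intro h j y
    simp only [hFh]
    rw [norm_mul, RCLike.norm_conj]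
    exact mul_le_one₀ (hF j y) (norm_nonneg _) (hF j _)
  set T : ZMod q → ℂ := fun h => ∑ t : Fin R → ZMod q, ∑ n : ZMod q,
    ((gh h (a₀ * n + ∑ k, b₀ k * t k) : ℝ) : ℂ) * ∏ j, Fh h j (a j * n + ∑ k, b j k * t k) with hT
  set In : ZMod q → (Fin R → ZMod q) → ℂ := fun h t => ∑ m : ZMod q, ∑ s : Fin J → ZMod q,
      ((gh h (m + ∑ l, s l) : ℝ) : ℂ) * ∏ j, Fh h j (a j * (a₀⁻¹ * (m - ∑ k, b₀ k * t k)) +
        ∑ k, b j k * t k + ∑ l, (a j * b l (i l) - b j (i l) * a l) *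
          ((a₀ * b l (i l) - a l * b₀ (i l))⁻¹ * s l)) with hIn
  -- the sum of the squares
  have h1 : ((∑ t, ‖I t‖ ^ 2 : ℝ) : ℂ) = ∑ h, T h := by
    rw [Complex.ofReal_sum]
    have h2 : ∀ t, ((‖I t‖ ^ 2 : ℝ) : ℂ) = ∑ h : ZMod q, ∑ n : ZMod q,
        ((gh h (a₀ * n + ∑ k, b₀ k * t k) : ℝ) : ℂ) * ∏ j, Fh h j (a j * n + ∑ k, b j k * t k) := by
      intro t
      simp only [hI]
      rw [gvg_sq]
      refine Finset.sum_congr rfl fun h _ => Finset.sum_congr rfl fun n _ => ?_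
      rw [map_mul, Complex.conj_ofReal, map_prod]
      simp only [hgh, hFh]
      rw [Finset.prod_mul_distrib]
      have e1 : a₀ * (n + h) + ∑ k, b₀ k * t k = a₀ * n + ∑ k, b₀ k * t k + a₀ * h := by ring
      have e2 : ∀ j, a j * (n + h) + ∑ k, b j k * t k = a j * n + ∑ k, b j k * t k + a j * h :=
        fun j => by ring
      rw [e1]
      simp only [e2]
      push_cast
      ring
    rw [Finset.sum_congr rfl fun t _ => h2 t, Finset.sum_comm]
  have h2 : ∑ t, ‖I t‖ ^ 2 ≤ ∑ h, ‖T h‖ := by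
    have e1 : ∑ t, ‖I t‖ ^ 2 = ‖∑ h, T h‖ := by
      rw [← h1, Complex.norm_real, Real.norm_of_nonneg]
      exact Finset.sum_nonneg fun t _ => by positivity
    rw [e1]
    exact norm_sum_le _ _
  have h3 : ∀ h, (q : ℝ) ^ J * ‖T h‖ ≤ ∑ t, ‖In h t‖ := by
    intro h
    have e1 := gvg_var (gh h) a₀ b₀ a b (Fh h) ha i hi'
    have e2 : (q : ℝ) ^ J * ‖T h‖ = ‖∑ t, In h t‖ := by
      rw [← e1, norm_mul, norm_pow, Complex.norm_natCast]
    rw [e2]
    exact norm_sum_le _ _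
  have h4 : ∀ h t, ‖In h t‖ ^ (2 ^ J) ≤ (q : ℝ) ^ ((J + 1) * (2 ^ J - 1)) * Gw J (gh h) := by
    intro h t
    refine hBC J q (gh h) (fun j m s => Fh h j (a j * (a₀⁻¹ * (m - ∑ k, b₀ k * t k)) +
        ∑ k, b j k * t k + ∑ l, (a j * b l (i l) - b j (i l) * a l) *
          ((a₀ * b l (i l) - a l * b₀ (i l))⁻¹ * s l))) hJ (fun j m s => hFh1 h j _) ?_
    intro j m s x
    have e1 : ∀ l, (a j * b l (i l) - b j (i l) * a l) *
          ((a₀ * b l (i l) - a l * b₀ (i l))⁻¹ * Function.update s j x l) =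
        (a j * b l (i l) - b j (i l) * a l) *
          ((a₀ * b l (i l) - a l * b₀ (i l))⁻¹ * s l) := by
      intro l
      by_cases hl : l = j
      · subst hl
        have : a l * b l (i l) - b l (i l) * a l = 0 := by ring
        rw [this, zero_mul, zero_mul]
      · rw [Function.update_of_ne hl]
    simp only [e1]
  have h5 : ∑ h, Gw J (gh h) = Gw (J + 1) g := by
    rw [Gw_succ]
    exact Equiv.sum_comp (Equiv.mulLeft₀ a₀ ha) (fun s0 => Gw J (fun x => g x * g (x + s0)))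
  -- the sum
  set S : ℂ := ∑ t : Fin R → ZMod q, c t * I t with hS
  have hcardR : (Fintype.card (Fin R → ZMod q) : ℝ) = (q : ℝ) ^ R := by
    rw [Fintype.card_fun, ZMod.card, Fintype.card_fin]
    push_cast
    rfl
  have h6 : ‖S‖ ^ 2 ≤ (q : ℝ) ^ R * ∑ t, ‖I t‖ ^ 2 := by
    have e1 : ‖S‖ ≤ ∑ t, ‖I t‖ := by
      refine (norm_sum_le _ _).trans (Finset.sum_le_sum fun t _ => ?_)
      rw [norm_mul]
      exact mul_le_of_le_one_left (norm_nonneg _) (hc t)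
    have e2 := sq_sum_le_card_mul_sum_sq (s := (Finset.univ : Finset (Fin R → ZMod q)))
      (f := fun t => ‖I t‖)
    rw [Finset.card_univ, hcardR] at e2
    exact (pow_le_pow_left₀ (norm_nonneg _) e1 2).trans e2
  have h7 : (q : ℝ) ^ J * ‖S‖ ^ 2 ≤
      (q : ℝ) ^ R * ∑ p : ZMod q × (Fin R → ZMod q), ‖In p.1 p.2‖ := by
    calc (q : ℝ) ^ J * ‖S‖ ^ 2 ≤ (q : ℝ) ^ J * ((q : ℝ) ^ R * ∑ t, ‖I t‖ ^ 2) :=
          mul_le_mul_of_nonneg_left h6 (by positivity)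
      _ ≤ (q : ℝ) ^ J * ((q : ℝ) ^ R * ∑ h, ‖T h‖) :=
          mul_le_mul_of_nonneg_left (mul_le_mul_of_nonneg_left h2 (by positivity)) (by positivity)
      _ = (q : ℝ) ^ R * ∑ h, (q : ℝ) ^ J * ‖T h‖ := by rw [← Finset.mul_sum]; ring
      _ ≤ (q : ℝ) ^ R * ∑ h, ∑ t, ‖In h t‖ :=
          mul_le_mul_of_nonneg_left (Finset.sum_le_sum fun h _ => h3 h) (by positivity)
      _ = (q : ℝ) ^ R * ∑ p : ZMod q × (Fin R → ZMod q), ‖In p.1 p.2‖ := by
          rw [Fintype.sum_prod_type]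
  obtain ⟨K, hK⟩ : ∃ K, 2 ^ J = K + 1 := ⟨2 ^ J - 1, by
    have : 0 < 2 ^ J := by positivity
    omega⟩
  set Z : ℝ := ∑ p : ZMod q × (Fin R → ZMod q), ‖In p.1 p.2‖ with hZ
  have hZ0 : 0 ≤ Z := Finset.sum_nonneg fun _ _ => norm_nonneg _
  have h8 : Z ^ (K + 1) ≤ ((q : ℝ) ^ (R + 1)) ^ K *
      ((q : ℝ) ^ R * ((q : ℝ) ^ ((J + 1) * K) * Gw (J + 1) g)) := by
    have hcard : ((Finset.univ : Finset (ZMod q × (Fin R → ZMod q))).card : ℝ) =
        (q : ℝ) ^ (R + 1) := by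
      rw [Finset.card_univ, Fintype.card_prod, Nat.cast_mul, hcardR, ZMod.card, pow_succ, mul_comm]
    have e1 := pow_sum_div_card_le_sum_pow
      (s := (Finset.univ : Finset (ZMod q × (Fin R → ZMod q)))) (f := fun p => ‖In p.1 p.2‖)
      (fun p _ => norm_nonneg _) K
    rw [hcard, div_le_iff₀ (by positivity)] at e1
    refine e1.trans ?_
    rw [mul_comm]
    refine mul_le_mul_of_nonneg_left ?_ (by positivity)
    have e2 : ∀ p : ZMod q × (Fin R → ZMod q), ‖In p.1 p.2‖ ^ (K + 1) ≤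
        (q : ℝ) ^ ((J + 1) * K) * Gw J (gh p.1) := by
      intro p
      have := h4 p.1 p.2
      rw [hK, Nat.add_sub_cancel] at this
      exact this
    refine (Finset.sum_le_sum fun p _ => e2 p).trans (le_of_eq ?_)
    rw [Fintype.sum_prod_type]
    simp only [Finset.sum_const, Finset.card_univ, nsmul_eq_mul, hcardR]
    rw [← Finset.mul_sum, ← Finset.mul_sum, h5]
  -- the end
  have hE : (R + 1) * 2 ^ (J + 1) = ((R + 1) * 2 ^ (J + 1) - (J + 2)) + (J + 2) := by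
    have e1 : J + 1 ≤ 2 ^ J := Nat.lt_two_pow_self
    have e2 : 2 ^ (J + 1) = 2 * 2 ^ J := by rw [pow_succ, mul_comm]
    have e3 : 1 * 2 ^ (J + 1) ≤ (R + 1) * 2 ^ (J + 1) := Nat.mul_le_mul_right _ (by omega)
    omega
  set E := (R + 1) * 2 ^ (J + 1) - (J + 2) with hEdef
  have h9 : (q : ℝ) ^ (J * (K + 1)) * ‖S‖ ^ (2 ^ (J + 1)) ≤
      (q : ℝ) ^ (J * (K + 1)) * ((q : ℝ) ^ E * Gw (J + 1) g) := by
    have e1 : (q : ℝ) ^ (J * (K + 1)) * ‖S‖ ^ (2 ^ (J + 1)) =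
        ((q : ℝ) ^ J * ‖S‖ ^ 2) ^ (K + 1) := by
      rw [mul_pow, ← pow_mul, ← pow_mul, pow_succ 2 J, hK, mul_comm (K + 1) 2]
    have e2 : ((q : ℝ) ^ J * ‖S‖ ^ 2) ^ (K + 1) ≤ ((q : ℝ) ^ R * Z) ^ (K + 1) :=
      pow_le_pow_left₀ (by positivity) h7 _
    have e3 : ((q : ℝ) ^ R * Z) ^ (K + 1) ≤ ((q : ℝ) ^ R) ^ (K + 1) *
        (((q : ℝ) ^ (R + 1)) ^ K * ((q : ℝ) ^ R * ((q : ℝ) ^ ((J + 1) * K) * Gw (J + 1) g))) := by
      rw [mul_pow]
      exact mul_le_mul_of_nonneg_left h8 (by positivity)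
    have e4 : ((q : ℝ) ^ R) ^ (K + 1) *
        (((q : ℝ) ^ (R + 1)) ^ K * ((q : ℝ) ^ R * ((q : ℝ) ^ ((J + 1) * K) * Gw (J + 1) g))) =
        (q : ℝ) ^ (R * (K + 1) + (R + 1) * K + R + (J + 1) * K) * Gw (J + 1) g := by
      rw [← pow_mul, ← pow_mul, pow_add, pow_add, pow_add]
      ring
    have e5 : R * (K + 1) + (R + 1) * K + R + (J + 1) * K = J * (K + 1) + E := by
      have e6 : (R + 1) * 2 ^ (J + 1) = (R + 1) * (2 * (K + 1)) := by
        rw [pow_succ, hK, mul_comm (K + 1) 2]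
      rw [e6] at hE
      have e7 : R * (K + 1) + (R + 1) * K + R + (J + 1) * K + (J + 2) =
          J * (K + 1) + (R + 1) * (2 * (K + 1)) := by ring
      omega
    rw [e1]
    refine e2.trans (e3.trans (le_of_eq ?_))
    rw [e4, e5, pow_add]
    ring
  exact le_of_mul_le_mul_left h9 (by positivity)

end Pool.Agent.H33.GUG
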